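import Mathlib
import Pool.Agent.H26.GF2

set_option autoImplicit false

namespace Pool.Agent.Results.MP_50e481_nt.Bose

open Polynomial Pool.Agent.H26.GF2

/-- affine equivalence of subsets of `ℤ/Mℤ` -/
def AffEq {M : ℕ} (A B : Set (ZMod M)) : Prop :=
  ∃ d s : ZMod M, IsUnit d ∧ B = (fun a => d * a + s) '' A

/-- `θ ^ b` has degree `n` over `K` -/
def Adm (K : Type) {F : Type} [Field K] [Field F] [Algebra K F] (θ : F) (n b : ℕ) : Prop :=
  (minpoly K (θ ^ b)).natDegree = n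

/-- the Bose set `Bose_h(q, b)` in `ℤ/(q^h-1)ℤ` -/
def bose (K : Type) {F : Type} [Field K] [Field F] [Algebra K F] (θ : F) (q h b : ℕ) :
    Set (ZMod (q ^ h - 1)) :=
  {a | ∃ v : K, θ ^ a.val = θ ^ b + algebraMap K F v}

/-- `b`, `e` are admissible and satisfy one of the conditions (i), (ii), (iii) -/
def Rel (K : Type) {F : Type} [Field K] [Field F] [Algebra K F] (θ : F) (p q h b e : ℕ) : Prop :=
  Adm K θ h b ∧ Adm K θ h e ∧
    (b ≡ e [MOD (q ^ h - 1) / (q - 1)] ∨ θ ^ b - θ ^ e ∈ Set.range (algebraMap K F) ∨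
      ∃ i : ℕ, b ≡ p ^ i * e [MOD q ^ h - 1])

def tab (k : ℕ) : ℕ := (74670837876034471727711299025120386925975572545 >>> (5 * k)) % 32

def lg (k : ℕ) : ℕ := (931001199420549403946829020058309183778805187584 >>> (5 * k)) % 32

theorem cert : Cert 5 41 tab lg :=
  ⟨by decide +kernel, by decide +kernel, by decide +kernel, by decide +kernel, by decide +kernel⟩

noncomputable def f : (ZMod 2)[X] := X ^ 5 + X ^ 3 + 1

theorem fdeg : f.natDegree = 5 := by unfold f; compute_degree!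

theorem f0 : f ≠ 0 := by intro h; have := fdeg; rw [h] at this; simp at this

theorem hP : ev (AdjoinRoot.root f) 41 = 0 := by
  have : aeval (AdjoinRoot.root f) (X ^ 5 + X ^ 3 + 1 : (ZMod 2)[X]) = 0 := by
    change aeval (AdjoinRoot.root f) f = 0
    simp
  rw [map_add, map_add, map_pow, map_pow, aeval_X, map_one] at this
  simp only [ev_eq _ 41, ev_eq _ 20, ev_eq _ 10, ev_eq _ 5, ev_eq _ 2, ev_one, Nat.reduceMod,
    Nat.reduceDiv, Nat.cast_one, Nat.cast_zero]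
  linear_combination this

instance : Fact (Irreducible f) := ⟨irred cert (by norm_num) f
  (by rw [degree_eq_natDegree f0, fdeg]; decide) f0 hP⟩

abbrev F := AdjoinRoot f

noncomputable abbrev θ : F := AdjoinRoot.root f

theorem rk : Module.finrank (ZMod 2) F = 5 := by
  rw [(AdjoinRoot.powerBasis f0).finrank, AdjoinRoot.powerBasis_dim, fdeg]

instance : FiniteDimensional (ZMod 2) F := (AdjoinRoot.powerBasis f0).finite

theorem ord : orderOf θ = 31 := order_eq cert (two_eq f) θ hP (by norm_num)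

theorem pw (k : ℕ) : θ ^ k = ev θ (tab (k % 31)) := pow_tab cert (two_eq f) θ hP (by norm_num) k

theorem pinj (a b : ℕ) : θ ^ a = θ ^ b ↔ a ≡ b [MOD 31] := by
  have : IsOfFinOrder θ := by rw [← orderOf_pos_iff, ord]; norm_num
  rw [← ord]; exact this.pow_eq_pow_iff_modEq

theorem add1 (a b : ℕ) (h : tab (a % 31) = tab (b % 31) ^^^ 1) : θ ^ a = θ ^ b + 1 := by
  rw [pw a, pw b, h, ev_xor' (two_eq f), ev_one]

theorem rng (v : ZMod 2) : algebraMap (ZMod 2) F v = 0 ∨ algebraMap (ZMod 2) F v = 1 := by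
  have : v = 0 ∨ v = 1 := by revert v; decide
  rcases this with rfl | rfl <;> simp

theorem adm (b : ℕ) (hb : ∀ d < 5, 0 < d → ¬ b * 2 ^ d ≡ b [MOD 31]) : Adm (ZMod 2) θ 5 b :=
  deg_eq rk _ fun d h0 h1 h => hb d h1 h0 (by rw [← pow_mul, pinj] at h; exact h)

theorem bose_eq (b c : ℕ) (h : θ ^ c = θ ^ b + 1) :
    bose (ZMod 2) θ 2 5 b = {(b : ZMod 31), (c : ZMod 31)} := by
  ext a
  have key : ∀ (a : ZMod 31) (k : ℕ), θ ^ a.val = θ ^ k ↔ a = (k : ZMod 31) := by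
    intro a k
    rw [pinj, ← ZMod.natCast_eq_natCast_iff, ZMod.natCast_zmod_val]
  constructor
  · rintro ⟨v, hv⟩
    rcases rng v with e | e
    · rw [e, add_zero] at hv; exact Or.inl ((key a b).mp hv)
    · rw [e, ← h] at hv; exact Or.inr ((key a c).mp hv)
  · rintro (e | e)
    · exact ⟨0, by rw [map_zero, add_zero]; exact (key a b).mpr e⟩
    · exact ⟨1, by rw [map_one, ← h]; exact (key a c).mpr e⟩

def C : List ℕ := [1, 2, 4, 7, 8, 14, 16, 19, 25, 28]

def S : Set F := {x | ∃ k ∈ C, x = θ ^ k}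

theorem S1 (x : F) (hx : x ∈ S) : x + 1 ∈ S := by
  obtain ⟨k, hk, rfl⟩ := hx
  have : ∀ k ∈ C, ∃ j ∈ C, tab (j % 31) = tab (k % 31) ^^^ 1 := by decide +kernel
  obtain ⟨j, hj, e⟩ := this k hk
  exact ⟨j, hj, (add1 j k e).symm⟩

theorem S2 (x : F) (hx : x ∈ S) : x ^ 2 ∈ S := by
  obtain ⟨k, hk, rfl⟩ := hx
  have : ∀ k ∈ C, ∃ j ∈ C, k * 2 ≡ j [MOD 31] := by decide +kernel
  obtain ⟨j, hj, e⟩ := this k hk
  exact ⟨j, hj, by rw [← pow_mul, pinj]; exact e⟩

theorem S3 (x : F) (i : ℕ) (hx : x ∈ S) : x ^ 2 ^ i ∈ S := by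
  induction i with
  | zero => simpa using hx
  | succ i ih => rw [pow_succ, pow_mul]; exact S2 _ ih

theorem S4 (e i : ℕ) (hx : (θ ^ e) ^ 2 ^ i ∈ S) : θ ^ e ∈ S := by
  have := S3 _ (4 * i) hx
  rw [← pow_mul, ← pow_add, ← pow_mul] at this
  have e1 : θ ^ (e * 2 ^ (i + 4 * i)) = θ ^ e := by
    rw [pinj, show i + 4 * i = 5 * i by ring, pow_mul]
    have : (2 ^ 5) ^ i ≡ 1 ^ i [MOD 31] := Nat.ModEq.pow i (by decide)
    simpa using this.mul_left e
  rwa [e1] at this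

theorem inv (b e : ℕ) (h : Relation.EqvGen (Rel (ZMod 2) θ 2 2 5) b e) : θ ^ b ∈ S ↔ θ ^ e ∈ S := by
  have h2 : (2 : F) = 0 := two_eq f
  induction h with
  | rel b e h =>
    obtain ⟨-, -, h | ⟨v, h⟩ | ⟨i, h⟩⟩ := h
    · rw [(pinj b e).mpr h]
    · rcases rng v with g | g
      · rw [show θ ^ b = θ ^ e by linear_combination g - h]
      · have e1 : θ ^ b = θ ^ e + 1 := by linear_combination g - h
        have e2 : θ ^ e = θ ^ b + 1 := by linear_combination h - g - h2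
        exact ⟨fun s => e2 ▸ S1 _ s, fun s => e1 ▸ S1 _ s⟩
    · rw [(pinj _ _).mpr h, mul_comm, pow_mul]
      exact ⟨S4 e i, S3 _ i⟩
  | refl => rfl
  | symm _ _ _ ih => exact ih.symm
  | trans _ _ _ _ _ ih1 ih2 => exact ih1.trans ih2

/-- Two affinely equivalent Bose sets whose parameters are not `≈_B`-equivalent. -/
theorem result :
    ∃ (p r h : ℕ) (K F : Type) (_ : Field K) (_ : Field F) (_ : Algebra K F) (θ : F) (b e : ℕ),
      p.Prime ∧ 0 < r ∧ 2 ≤ h ∧ Nat.card K = p ^ r ∧ Nat.card F = (p ^ r) ^ h ∧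
      orderOf θ = (p ^ r) ^ h - 1 ∧ Adm K θ h b ∧ Adm K θ h e ∧
      AffEq (bose K θ (p ^ r) h b) (bose K θ (p ^ r) h e) ∧
      ¬ Relation.EqvGen (Rel K θ p (p ^ r) h) b e := by
  refine ⟨2, 1, 5, ZMod 2, F, inferInstance, inferInstance, inferInstance, θ, 1, 3, Nat.prime_two,
    one_pos, by norm_num, by simp, ?_, ord, adm 1 (by decide), adm 3 (by decide), ?_, ?_⟩
  · rw [Module.natCard_eq_pow_finrank (K := ZMod 2), rk]; simp
  · change AffEq (bose (ZMod 2) θ 2 5 1) (bose (ZMod 2) θ 2 5 3)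
    rw [bose_eq 1 14 (add1 _ _ (by decide +kernel)), bose_eq 3 5 (add1 _ _ (by decide +kernel))]
    refine ⟨(24 : ZMod 31), (10 : ZMod 31), IsUnit.of_mul_eq_one (22 : ZMod 31) (by decide), ?_⟩
    rw [Set.image_pair]
    congr 1
  · intro h
    obtain ⟨k, hk, e⟩ := (inv 1 3 h).mp ⟨1, by decide, rfl⟩
    rw [pinj] at e
    revert k
    decide

end Pool.Agent.Results.MP_50e481_nt.Bose
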