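import Mathlib
import Pool.Agent.H26.GF2

set_option autoImplicit false

namespace Pool.Agent.Results.MP_50e481_nt.Singer

open Polynomial Pool.Agent.H26.GF2

/-- affine equivalence of subsets of `ℤ/Mℤ` -/
def AffEq {M : ℕ} (A B : Set (ZMod M)) : Prop :=
  ∃ d s : ZMod M, IsUnit d ∧ B = (fun a => d * a + s) '' A

/-- `θ ^ b` has degree `n` over `K` -/
def Adm (K : Type) {F : Type} [Field K] [Field F] [Algebra K F] (θ : F) (n b : ℕ) : Prop :=
  (minpoly K (θ ^ b)).natDegree = n

/-- the Singer set `Singer_h(q, b)` in `ℤ/Mℤ`, `M = (q^(h+1)-1)/(q-1)` -/
def singer (K : Type) {F : Type} [Field K] [Field F] [Algebra K F] (θ : F) (q h b : ℕ) :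
    Set (ZMod ((q ^ (h + 1) - 1) / (q - 1))) :=
  {a | ∃ u v : K, θ ^ a.val = algebraMap K F u * θ ^ b + algebraMap K F v}

/-- `b`, `e` are admissible and satisfy one of the conditions (iv), (v), (vi), (vii) -/
def Rel (K : Type) {F : Type} [Field K] [Field F] [Algebra K F] (θ : F) (p q h b e : ℕ) : Prop :=
  Adm K θ (h + 1) b ∧ Adm K θ (h + 1) e ∧
    (b ≡ e [MOD (q ^ (h + 1) - 1) / (q - 1)] ∨ (∃ i : ℕ, b ≡ p ^ i * e [MOD q ^ (h + 1) - 1]) ∨
      θ ^ b - θ ^ e ∈ Set.range (algebraMap K F) ∨
      ∃ r t w : K, (r, t) ≠ (0, 0) ∧ algebraMap K F r * θ ^ b + algebraMap K F t * θ ^ (e + b) +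
        algebraMap K F w * θ ^ e ∈ Set.range (algebraMap K F))

def tab (k : ℕ) : ℕ := (53796254557616310264343156955364017385631621732068198840071364042667322012637802733732670502071537406877265054913848783362490064591259048070580561456359237573857203540461067806336309820529179241673309827932171861225688845479551786495486922925922880162599366971520292584014673942395409276457847645654327185681755254948586909974276091201836330876352049367543575175850458078886880932974293872182087991035225655929597848694296600860415831436939476556022993648213968838158459945285755283778790798790697760088116846278120738907621352924933421903345583515956861524143117691220901457792192007153341585498516570481069769938878019369681792772334998619735647593038801830072359702061055362866893017023401020645040647711405557248691757550372510948134424887664160294849168872863156647690357871706726858182390869346894026917862619763267480346173749934312747475891043908389984500600820164329345174790502201789210638701734967848115660723545044932539386889898560972396874490127757789430574224130298145778012980787744735284053272761000095121114353512883052758465664884988825532638833405934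2602714132160173363137314005599693640114857957882191831627328057805197168522265244887898666913404268180180146977712211799594096502870631848714556863410283619926054535672718081633521183526451159488688993895448622921028284585000285448567889701914821772690933972447973149969444782632159296033220011986344718193394947159889492531599273587977546865815017918923591814741236735219006151594752384023720025901516403339441534791043256167194524857842237029192712775528402625800854642325016239689243436426915590818530606526644219121760730611421410429887404153371925831360661843911382179257157098715567803866235352438596090564070617798349869587867905547314031020538029447194985109889526014620699128250429277718294217704549319309943035956478875721321172282513080221974450802272375691338870549282967521678763591704525859240952304520556153520278533379308038270346911089307577717249779331434266373319626798310910815531195522125775439762059383943421895854064539396925187226884341311522702131376174830902508281580431942285920309764258348867009774321377022122421292225721979943265757117808400228583395389481383124145752903616793566579936661226623210165997568521366761377428495602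93758105926153527086122059791093659103553802768085820948106717187065288344677454600732776626691075787970121612666442431457456938317489115955928724731074275956629320500161328584989164563000741675573670780520109731020333549754743825929539804298397850738826152255082371018720277208940627376575339094938156299961339232175666894440905946847955044623273222595112307947293765634702817184947019128689176193020804019213424805566779473315555405754607109405432434474716695526183585405868088843577649230135278204858069949041585097983619516374585963589041990783631792010166333794609238471330876672122967740975130347298651206753764686282953673309185955749612900041417356063334360145401763704364403940489456863415193519669196172646796845159335083284658044034816117503848401532410618779070776597806578990637852481661124613570688773004912274762022633268131623272974337 >>> (10 * k)) % 1024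

def lg (k : ℕ) : ℕ := (288355787402602730360285805295307098553516948353360865853785680248963324379707671230630523316086186263501406697375460735956389768632465298849472896637695161308320960165761807691080052943913189623160048393857120995951659238529861043219241809336521944397478537471832435777288563258518789318688079161266872792265099520240136606667759583651902893794315929778382379569750176011681789791662045647709110987463023014866194858114083966885259965846494459680273196696205719979707970675510629949513658332620941814043381439340674801277843124801900489146049514477529357238563552589285454747929157563498760769274866310829218885280482696633216405938926759129713712682636668042443662945073717111265728494505608806591548037784342781951436261530539441960565009968339651520192576974857166148910939314112570798570307582897130358350406199993318605406147720621104943787873664496070297047865552737232865091166307788160372060278943561594530408776372943851033344836801577217814720618085993156997874082780304555429053735062052358289309476057634751349606412306146753259585409164071325045846763728421729539889929096428812274210927143586433339161155422161090886252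2369370720115195852366846653481501301175367328291825803289409863536507703198409536950534571796042487481190951205307023693255085618318688662194195951049027708452378595949933172108181390458009565689513395300820096173945900783484101672451308468897248097539901737613673601984427710591581497892405089563242637884816617066852253580239644718240742614138354309666931242015645764807875700966715176449215659178738505908170868565637703689446823876802997512729085139145953863532863896119936756378331502070205704247474743746079056387535613996217316307382090714945186501982965914396451134267304360091315175967186773374029624796338775398896701798675484220138183426948595621571741951023052243430038048046780959371817217379573898968074099534381953824785767524843222129863697340328960778564093955447892598010805019807304933300953436891416893978502393989234194723946891439641238495250495670214272932768902099540407470345218845866198981550954163244636811086866821260172244247069108659998198013897982138081813323188255625354431210461404206350037195371190934139389403497167669068671198308674949403862027003485654146601422328706366719708785483340975908895398193442678278157852166499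446148181513141594526482418256090634728884260244469135084138296430392764138446511327949159358239903636951506143863328833966917795718631019258251548727703207756223257456686424660807385092260627672859751905036105535691331328354013160880285705919366039632650002677724686666235317543379722229692015361625821005021490144434922729042041708078990260707652929454880634324398143401582305577157516465415338011034070738743313693810689139651562633035011695852861536915276315894262203378936142443552083633462877067731311409789815062941340014968970982596821877414294861643118587051339524545221924291655121634086475653989033299725419127921692492292458619130902959066958919657609075573615050165212540813117202853605476998972486658517972615720249566638649058807321103965003704146797178423283774973868507136 >>> (10 * k)) % 1024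

theorem cert : Cert 10 1153 tab lg :=
  ⟨by decide +kernel, by decide +kernel, by decide +kernel, by decide +kernel, by decide +kernel⟩

noncomputable def f : (ZMod 2)[X] := X ^ 10 + X ^ 7 + 1

theorem fdeg : f.natDegree = 10 := by unfold f; compute_degree!

theorem f0 : f ≠ 0 := by intro h; have := fdeg; rw [h] at this; simp at this

theorem hP : ev (AdjoinRoot.root f) 1153 = 0 := by
  have : aeval (AdjoinRoot.root f) (X ^ 10 + X ^ 7 + 1 : (ZMod 2)[X]) = 0 := by
    change aeval (AdjoinRoot.root f) f = 0
    simp
  rw [map_add, map_add, map_pow, map_pow, aeval_X, map_one] at this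
  simp only [ev_eq _ 1153, ev_eq _ 576, ev_eq _ 288, ev_eq _ 144, ev_eq _ 72, ev_eq _ 36,
    ev_eq _ 18, ev_eq _ 9, ev_eq _ 4, ev_eq _ 2, ev_one, Nat.reduceMod,
    Nat.reduceDiv, Nat.cast_one, Nat.cast_zero]
  linear_combination this

instance : Fact (Irreducible f) := ⟨irred cert (by norm_num) f
  (by rw [degree_eq_natDegree f0, fdeg]; decide) f0 hP⟩

abbrev F := AdjoinRoot f

noncomputable abbrev θ : F := AdjoinRoot.root f

theorem rk : Module.finrank (ZMod 2) F = 10 := by
  rw [(AdjoinRoot.powerBasis f0).finrank, AdjoinRoot.powerBasis_dim, fdeg]

instance : FiniteDimensional (ZMod 2) F := (AdjoinRoot.powerBasis f0).finite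

theorem ord : orderOf θ = 1023 := order_eq cert (two_eq f) θ hP (by norm_num)

theorem pw (k : ℕ) : θ ^ k = ev θ (tab (k % 1023)) := pow_tab cert (two_eq f) θ hP (by norm_num) k

theorem pinj (a b : ℕ) : θ ^ a = θ ^ b ↔ a ≡ b [MOD 1023] := by
  have : IsOfFinOrder θ := by rw [← orderOf_pos_iff, ord]; norm_num
  rw [← ord]; exact this.pow_eq_pow_iff_modEq

theorem add1 (a b : ℕ) (h : tab (a % 1023) = tab (b % 1023) ^^^ 1) : θ ^ a = θ ^ b + 1 := by
  rw [pw a, pw b, h, ev_xor' (two_eq f), ev_one]

theorem rng (v : ZMod 2) : algebraMap (ZMod 2) F v = 0 ∨ algebraMap (ZMod 2) F v = 1 := by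
  have : v = 0 ∨ v = 1 := by revert v; decide
  rcases this with rfl | rfl <;> simp

theorem adm (b : ℕ) (hb : ∀ d < 10, 0 < d → ¬ b * 2 ^ d ≡ b [MOD 1023]) : Adm (ZMod 2) θ 10 b :=
  deg_eq rk _ fun d h0 h1 h => hb d h1 h0 (by rw [← pow_mul, pinj] at h; exact h)

theorem θ0 (k : ℕ) : θ ^ k ≠ 0 := by
  have : IsOfFinOrder θ := by rw [← orderOf_pos_iff, ord]; norm_num
  exact (this.isUnit.pow k).ne_zero

theorem singer_eq (b c : ℕ) (h : θ ^ c = θ ^ b + 1) :
    singer (ZMod 2) θ 2 9 b = {((0 : ℕ) : ZMod 1023), (b : ZMod 1023), (c : ZMod 1023)} := by
  ext a
  have key : ∀ (a : ZMod 1023) (k : ℕ), θ ^ a.val = θ ^ k ↔ a = (k : ZMod 1023) := by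
    intro a k
    rw [pinj, ← ZMod.natCast_eq_natCast_iff, ZMod.natCast_zmod_val]
  constructor
  · rintro ⟨u, v, hv⟩
    rcases rng u with e' | e' <;> rcases rng v with e | e <;> rw [e, e'] at hv
    · exact absurd (by rw [hv]; ring) (θ0 a.val)
    · exact Or.inl ((key a 0).mp (by rw [pow_zero]; exact hv.trans (by ring)))
    · exact Or.inr (Or.inl ((key a b).mp (hv.trans (by ring))))
    · exact Or.inr (Or.inr ((key a c).mp (by rw [h]; exact hv.trans (by ring))))
  · rintro (e | e | e)
    · exact ⟨0, 1, by rw [map_zero, map_one, zero_mul, zero_add, ← pow_zero θ]; exact (key a 0).mpr e⟩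
    · exact ⟨1, 0, by rw [map_zero, map_one, one_mul, add_zero]; exact (key a b).mpr e⟩
    · exact ⟨1, 1, by rw [map_one, one_mul, ← h]; exact (key a c).mpr e⟩

def C : List ℕ := [31, 37, 62, 74, 124, 148, 161, 248, 265, 296, 322, 379, 431, 493, 496, 527, 530, 592, 644, 701, 727, 758, 775, 862, 875, 899, 949, 961, 986, 992]

def S : Set F := {x | ∃ k ∈ C, x = θ ^ k}

theorem S1 (x : F) (hx : x ∈ S) : x + 1 ∈ S := by
  obtain ⟨k, hk, rfl⟩ := hx
  have : ∀ k ∈ C, ∃ j ∈ C, tab (j % 1023) = tab (k % 1023) ^^^ 1 := by decide +kernel
  obtain ⟨j, hj, e⟩ := this k hk
  exact ⟨j, hj, (add1 j k e).symm⟩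

theorem S2 (x : F) (hx : x ∈ S) : x ^ 2 ∈ S := by
  obtain ⟨k, hk, rfl⟩ := hx
  have : ∀ k ∈ C, ∃ j ∈ C, k * 2 ≡ j [MOD 1023] := by decide +kernel
  obtain ⟨j, hj, e⟩ := this k hk
  exact ⟨j, hj, by rw [← pow_mul, pinj]; exact e⟩

theorem S3 (x : F) (i : ℕ) (hx : x ∈ S) : x ^ 2 ^ i ∈ S := by
  induction i with
  | zero => simpa using hx
  | succ i ih => rw [pow_succ, pow_mul]; exact S2 _ ih

theorem S4 (e i : ℕ) (hx : (θ ^ e) ^ 2 ^ i ∈ S) : θ ^ e ∈ S := by
  have := S3 _ (9 * i) hx
  rw [← pow_mul, ← pow_add, ← pow_mul] at this
  have e1 : θ ^ (e * 2 ^ (i + 9 * i)) = θ ^ e := by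
    rw [pinj, show i + 9 * i = 10 * i by ring, pow_mul]
    have : (2 ^ 10) ^ i ≡ 1 ^ i [MOD 1023] := Nat.ModEq.pow i (by decide)
    simpa using this.mul_left e
  rwa [e1] at this

theorem S5 (x y : F) (h : x * y = 1) (hx : x ∈ S) : y ∈ S := by
  obtain ⟨k, hk, rfl⟩ := hx
  have : ∀ k ∈ C, ∃ j ∈ C, k + j ≡ 0 [MOD 1023] := by decide +kernel
  obtain ⟨j, hj, e⟩ := this k hk
  refine ⟨j, hj, mul_left_cancel₀ (θ0 k) ?_⟩
  rw [h, ← pow_add, (pinj _ _).mpr e, pow_zero]

theorem S6 (x : F) : x + 1 ∈ S ↔ x ∈ S := by
  have h2 : (2 : F) = 0 := two_eq f
  refine ⟨fun h => ?_, S1 x⟩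
  have := S1 _ h
  rwa [show x + 1 + 1 = x by linear_combination h2] at this

theorem S7 (x y : F) (h : x * y = 1) : x ∈ S ↔ y ∈ S :=
  ⟨S5 x y h, S5 y x (by rw [mul_comm, h])⟩

theorem ne1 (b : ℕ) (h : Adm (ZMod 2) θ (9 + 1) b) : θ ^ b ≠ 1 := by
  intro e
  unfold Adm at h
  rw [e, minpoly.one, ← C_1, natDegree_X_sub_C] at h
  omega

theorem inv (b e : ℕ) (h : Relation.EqvGen (Rel (ZMod 2) θ 2 2 9) b e) : θ ^ b ∈ S ↔ θ ^ e ∈ S := by
  have h2 : (2 : F) = 0 := two_eq f
  induction h with
  | rel b e h =>
    obtain ⟨ab, ae, h | ⟨i, h⟩ | ⟨v, h⟩ | ⟨r, t, w, hrt, v, h⟩⟩ := h
    · rw [(pinj b e).mpr h]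
    · rw [(pinj _ _).mpr h, mul_comm, pow_mul]
      exact ⟨S4 e i, S3 _ i⟩
    · rcases rng v with g | g
      · rw [show θ ^ b = θ ^ e by linear_combination g - h]
      · rw [show θ ^ b = θ ^ e + 1 by linear_combination g - h, S6]
    · have nb := ne1 b ab
      have ne := ne1 e ae
      have zb := θ0 b
      have ze := θ0 e
      rw [pow_add] at h
      generalize θ ^ b = x at *
      generalize θ ^ e = y at *
      have h01 : ∀ r : ZMod 2, r = 0 ∨ r = 1 := by decide
      have hr := h01 r
      have ht := h01 t
      rcases hr with rfl | rfl <;> rcases ht with rfl | rfl <;> rcases rng w with g | g <;>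
        rcases rng v with g' | g' <;> simp only [g, g', map_zero, map_one] at h
      iterate 4 exact absurd rfl hrt
      · exact absurd (by linear_combination -h) (mul_ne_zero ze zb)
      · exact S7 x y (by linear_combination -h)
      · exact absurd (mul_left_cancel₀ ze (by linear_combination -h - y * h2)) nb
      · rw [← S6]; exact S7 _ y (by linear_combination -h)
      · exact absurd (by linear_combination -h) zb
      · exact absurd (by linear_combination -h) nb
      · rw [show x = y by linear_combination -h - y * h2]
      · rw [show x = y + 1 by linear_combination -h - y * h2, S6]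
      · exact absurd (mul_left_cancel₀ zb (by linear_combination -h - x * h2)) ne
      · rw [← S6 y]; exact S7 x _ (by linear_combination -h)
      · rw [← S6, ← S6 y]; exact S7 _ _ (by linear_combination -h)
      · exact absurd (by linear_combination -h - (x + y - 1) * h2)
          (mul_ne_zero (sub_ne_zero.mpr nb) (sub_ne_zero.mpr ne))
  | refl => rfl
  | symm _ _ _ ih => exact ih.symm
  | trans _ _ _ _ _ ih1 ih2 => exact ih1.trans ih2

/-- Two affinely equivalent Singer sets whose parameters are not `≈_S`-equivalent. -/
theorem result :
    ∃ (p r h : ℕ) (K F : Type) (_ : Field K) (_ : Field F) (_ : Algebra K F) (θ : F) (b e : ℕ),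
      p.Prime ∧ 0 < r ∧ 2 ≤ h ∧ Nat.card K = p ^ r ∧ Nat.card F = (p ^ r) ^ (h + 1) ∧
      orderOf θ = (p ^ r) ^ (h + 1) - 1 ∧ Adm K θ (h + 1) b ∧ Adm K θ (h + 1) e ∧
      AffEq (singer K θ (p ^ r) h b) (singer K θ (p ^ r) h e) ∧
      ¬ Relation.EqvGen (Rel K θ p (p ^ r) h) b e := by
  refine ⟨2, 1, 9, ZMod 2, F, inferInstance, inferInstance, inferInstance, θ, 493, 589,
    Nat.prime_two, one_pos, by norm_num, by simp, ?_, ord, adm 493 (by decide +kernel),
    adm 589 (by decide +kernel), ?_, ?_⟩
  · rw [Module.natCard_eq_pow_finrank (K := ZMod 2), rk]; simp
  · change AffEq (singer (ZMod 2) θ 2 9 493) (singer (ZMod 2) θ 2 9 589)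
    rw [singer_eq 493 431 (add1 _ _ (by decide +kernel)),
      singer_eq 589 938 (add1 _ _ (by decide +kernel))]
    refine ⟨(106 : ZMod 1023), (938 : ZMod 1023),
      IsUnit.of_mul_eq_one (415 : ZMod 1023) (by decide +kernel), ?_⟩
    rw [Set.image_insert_eq, Set.image_pair]
    have e1 : (106 : ZMod 1023) * ((0 : ℕ) : ZMod 1023) + 938 = ((938 : ℕ) : ZMod 1023) := by
      decide +kernel
    have e2 : (106 : ZMod 1023) * ((493 : ℕ) : ZMod 1023) + 938 = ((0 : ℕ) : ZMod 1023) := by
      decide +kernel
    have e3 : (106 : ZMod 1023) * ((431 : ℕ) : ZMod 1023) + 938 = ((589 : ℕ) : ZMod 1023) := by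
      decide +kernel
    change _ = ({(106 : ZMod 1023) * ((0 : ℕ) : ZMod 1023) + 938,
      (106 : ZMod 1023) * ((493 : ℕ) : ZMod 1023) + 938,
      (106 : ZMod 1023) * ((431 : ℕ) : ZMod 1023) + 938} : Set (ZMod 1023))
    rw [e1, e2, e3]
    ext x
    change (_ ∨ _ ∨ _) ↔ (_ ∨ _ ∨ _)
    tauto
  · intro h
    obtain ⟨k, hk, e⟩ := (inv 493 589 h).mp ⟨493, by decide +kernel, rfl⟩
    rw [pinj] at e
    revert k
    decide +kernel

end Pool.Agent.Results.MP_50e481_nt.Singer
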